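import Pool.Agent.V11269.FF5

/-!
# MP_05fa0d_nt

Every hybrid digital Kronecker–Van der Corput sequence with `Θ ∈ Bad(P,q)` has low discrepancy.
-/

namespace Pool.Agent.Results.MP_05fa0d_nt.LowDiscrepancy

open Finset Polynomial Pool.Agent.V11269.FFDefs Pool.Agent.V11269.FF

theorem result {F : Type*} [Field F] [Fintype F] (E : F ≃ Fin (Fintype.card F))
    (hE : (E 0 : ℕ) = 0) (P : F[X]) (hP : Irreducible P) (Θ : LaurentSeries F) (hΘ : Bad P Θ) :
    ∃ C : ℝ, ∀ N : ℕ, 2 ≤ N →
      starDisc (fun n => (K E Θ n, V E P n)) N ≤ C * Real.log N ^ 2 / N := by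
  classical
  have hq := card_pos' (F := F)
  have hq2 : 2 ≤ Fintype.card F := two_le_card
  have hqn : 0 < Fintype.card F := Fintype.card_pos
  have hq1 : (1 : ℝ) ≤ Fintype.card F := by exact_mod_cast (by omega : 1 ≤ Fintype.card F)
  have hP0 : P ≠ 0 := hP.ne_zero
  have hD : 0 < P.natDegree := hP.natDegree_pos
  obtain ⟨l, hbad⟩ := bad_of hΘ
  set Q : ℝ := (Fintype.card F : ℝ) ^ P.natDegree with hQ
  have hQ0 : 0 < Q := pow_pos hq _
  have hQ1 : 1 ≤ Q := one_le_pow₀ hq1
  set A : ℝ := (Fintype.card F : ℝ) ^ (l + 1) + (Fintype.card F : ℝ) ^ l with hA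
  have hA0 : 0 < A := by positivity
  refine ⟨9 * (Q * A + 1), ?_⟩
  intro N hN
  have hNpos : (0 : ℝ) < N := by
    have : 0 < N := by omega
    exact_mod_cast this
  have hlog2 : (0.6931471803 : ℝ) < Real.log 2 := Real.log_two_gt_d9
  have hlogN : Real.log 2 ≤ Real.log N := by
    apply Real.log_le_log (by norm_num)
    exact_mod_cast hN
  -- number of digits
  set j := Nat.log (Fintype.card F) N + 1 with hj
  have hNj : N < Fintype.card F ^ j := Nat.lt_pow_succ_log_self (by omega) N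
  have hj1 : (1 : ℝ) ≤ j := by exact_mod_cast (by omega : 1 ≤ j)
  have hjlog : (j : ℝ) ≤ 3 * Real.log N := by
    have h1 : Fintype.card F ^ (Nat.log (Fintype.card F) N) ≤ N :=
      Nat.pow_log_le_self _ (by omega)
    have h2 : (2 : ℕ) ^ (Nat.log (Fintype.card F) N) ≤ N :=
      (Nat.pow_le_pow_left hq2 _).trans h1
    have h3 : ((2 : ℝ)) ^ (Nat.log (Fintype.card F) N) ≤ N := by exact_mod_cast h2
    have h4 := Real.log_le_log (by positivity) h3
    rw [Real.log_pow] at h4
    have h5 : (j : ℝ) = (Nat.log (Fintype.card F) N : ℝ) + 1 := by rw [hj]; push_cast; ring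
    rw [h5]
    have h6 : (0 : ℝ) ≤ (Nat.log (Fintype.card F) N : ℝ) := Nat.cast_nonneg _
    nlinarith
  have hNI : N ≤ Fintype.card F ^ (P.natDegree * j) :=
    hNj.le.trans (Nat.pow_le_pow_right hqn (Nat.le_mul_of_pos_left _ hD))
  have hVlt : ∀ n, V E P n < 1 := by
    intro n
    apply vdcP_lt_one E hE hP0 hD ((toPoly E n).natDegree + 1)
    refine lt_of_le_of_lt degree_le_natDegree ?_
    exact_mod_cast Nat.lt_succ_self _
  -- key count
  have key : ∀ γ lam : ℝ, 0 ≤ γ → γ ≤ 1 → 0 ≤ lam → lam ≤ 1 →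
      |(cnt (range N) (fun n => K E Θ n < γ ∧ V E P n < lam) : ℝ) - γ * lam * N| ≤
      (Q * A + 1) * j ^ 2 := by
    intro γ lam h0 h1 h2 h3
    rcases lt_or_eq_of_le h3 with h3 | h3
    · have h4 := main (l := l) (Θ := Θ) E hE hP0 hD hbad γ h0 h1 j N j hNj.le hNI j 0
        (by omega) 0 lam h2 h3
      have h5 : cnt (range N) (fun n => KK E Θ (toPoly E n) < γ ∧
          ∃ h, toPoly E n = 0 + P ^ 0 * h ∧ vdcP E P h < lam) =
          cnt (range N) (fun n => K E Θ n < γ ∧ V E P n < lam) := by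
        apply cnt_congr
        intro n _
        rw [K_eq]
        apply and_congr_right
        intro _
        constructor
        · rintro ⟨h, hh, hv⟩
          rw [pow_zero, one_mul, zero_add] at hh
          unfold V; rw [hh]; exact hv
        · intro hv
          exact ⟨toPoly E n, by simp, hv⟩
      rw [h5, mul_zero, pow_zero, div_one] at h4
      refine h4.trans ?_
      have h6 : (j : ℝ) * (Fintype.card F : ℝ) ^ (l + 1) + (Fintype.card F : ℝ) ^ l ≤ j * A := by
        rw [hA]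
        have : (0 : ℝ) < (Fintype.card F : ℝ) ^ l := by positivity
        nlinarith
      have h7 : (j : ℝ) * (Q * (j * (Fintype.card F : ℝ) ^ (l + 1) + (Fintype.card F : ℝ) ^ l)) ≤
          j * (Q * (j * A)) := by gcongr
      have h8 : (1 : ℝ) ≤ (j : ℝ) ^ 2 := one_le_pow₀ hj1
      calc _ ≤ (j : ℝ) * (Q * (j * A)) + 1 := by linarith
        _ ≤ (Q * A + 1) * j ^ 2 := by nlinarith
    · subst h3
      have h4 := general (l := l) (Θ := Θ) E hE hP0 hbad 0 γ h0 h1 j 0 0 N hNj.le
      have h5 : cnt (range N) (fun n => P ^ 0 ∣ 0 + toPoly E n ∧ KK E Θ (0 + toPoly E n) < γ) =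
          cnt (range N) (fun n => K E Θ n < γ ∧ V E P n < 1) := by
        apply cnt_congr
        intro n _
        rw [K_eq]
        simp only [pow_zero, zero_add, isUnit_one, IsUnit.dvd, true_and, hVlt n, and_true]
      rw [h5, mul_zero, pow_zero, div_one] at h4
      rw [mul_one]
      refine h4.trans ?_
      have h6 : (j : ℝ) * (Fintype.card F : ℝ) ^ (l + 1) + (Fintype.card F : ℝ) ^ l ≤ j * A := by
        rw [hA]
        have : (0 : ℝ) < (Fintype.card F : ℝ) ^ l := by positivity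
        nlinarith
      refine h6.trans ?_
      have h7 : (j : ℝ) ≤ (j : ℝ) ^ 2 := by nlinarith
      have h8 : (j : ℝ) * A ≤ j ^ 2 * (Q * A) := by
        have : A ≤ Q * A := by nlinarith
        gcongr
      nlinarith [sq_nonneg (j : ℝ)]
  unfold starDisc
  apply ciSup_le
  rintro ⟨⟨γ, hγ0, hγ1⟩, ⟨lam, hl0, hl1⟩⟩
  have h1 := key γ lam hγ0 hγ1 hl0 hl1
  have h2 : (((range N).filter fun n => 0 ≤ K E Θ n ∧ K E Θ n < γ ∧ 0 ≤ V E P n ∧
      V E P n < lam).card : ℝ) = cnt (range N) (fun n => K E Θ n < γ ∧ V E P n < lam) := by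
    rw [cnt_eq]
    congr 2
    apply filter_congr
    intro n _
    constructor
    · rintro ⟨-, h, -, h'⟩; exact ⟨h, h'⟩
    · rintro ⟨h, h'⟩
      exact ⟨by rw [K_eq]; exact val_nonneg E _, h, vdcP_nonneg E _, h'⟩
  have h3 : ∀ c : ℝ, c / N - γ * lam = (c - γ * lam * N) / N := by
    intro c; field_simp
  have h4 : |(cnt (range N) (fun n => K E Θ n < γ ∧ V E P n < lam) : ℝ) / N - γ * lam| ≤
      9 * (Q * A + 1) * Real.log N ^ 2 / N := by
    rw [h3, abs_div, abs_of_pos hNpos]
    apply div_le_div_of_nonneg_right _ hNpos.le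
    refine h1.trans ?_
    have h5 : (j : ℝ) ^ 2 ≤ (3 * Real.log N) ^ 2 := by gcongr
    have h6 : 0 < Q * A + 1 := by positivity
    nlinarith
  rw [← h2] at h4
  convert h4 using 5

end Pool.Agent.Results.MP_05fa0d_nt.LowDiscrepancy
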